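import Mathlib
import Pool.Agent.Helper33.MC.GBas
import Pool.Agent.Helper79.MC.Acc

/-!
MP_4042d8_co, section D, part II: what is lost by the operation `N(u,a)` in an arbitrary simple
cubic graph; rows G_C0 and G_C1.
-/

set_option autoImplicit false
set_option linter.unusedSectionVars false
set_option linter.unusedSimpArgs false
set_option linter.unusedVariables false

namespace Pool.Agent.Helper86.MC

open Pool.Agent.Helper27.MC hiding Fr T1 ter
open Pool.Agent.Helper51.MC Pool.Agent.Helper88.MC Pool.Agent.Helper64.MC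
open Pool.Agent.Helper91.MC Pool.Agent.Helper33.MC
open Pool.Agent.Helper79.MC (Sqg KP Cw)
open Pool.Agent.Helper91.MC.GK (Khb)
open Pool.Agent.Helper96.MC (Td Apx Lx Exm)

variable {V : Type} [Fintype V] [DecidableEq V] {G : SimpleGraph V} [DecidableRel G.Adj]
  {c : V → Bool} {j : ℕ} {L : V → V → Prop} {H H' : Finset V}

section facts

variable (F : FxG G c j L)
include F

/-- a clear vertex of type `S` among the bare neighbours of `a` is the mate of `u` -/
theorem n_K {u v a b x y g : V} (hu : Sv G c u v a b) (bx : Bare G c H u x)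
    (by' : Bare G c H u y) (hc : Clr G H g) (hgS : tS G c g) (h : g = x ∨ g = y) : g = v := by
  have hb : Bare G c H u g := by
    rcases h with h | h
    · exact h ▸ bx
    · exact h ▸ by'
  obtain ⟨m, hm⟩ := exists_mate hgS.2
  rcases hb m hm with h1 | h1
  · exact sv_mateG F hu (by rw [← h1]; exact hm.symm)
  · exact (hc.2 m hm.1 h1).elim

omit F in
/-- a clear vertex of type `S` adjacent to a bare neighbour of `a` is `u` -/
theorem n_xy {u a x y g w : V} (ha : Av G c a u x y) (bx : Bare G c H u x)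
    (by' : Bare G c H u y) (hc : Clr G H g) (hgS : tS G c g) (h : w = x ∨ w = y)
    (hadj : G.Adj g w) : g = u := by
  have cw : c w = false := by
    rcases h with h | h <;> subst h
    · exact ha.cy
    · exact ha.cz
  have hb : Bare G c H u w := by
    rcases h with h | h
    · exact h ▸ bx
    · exact h ▸ by'
  rcases hb g ⟨hadj.symm, by rw [cw]; exact hgS.1⟩ with h1 | h1
  · exact h1
  · exact (hc.1 h1).elim

/-- a clear vertex of type `S` adjacent to `a` is `u` or `v` -/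
theorem n_a {u v a b x y g : V} (hu : Sv G c u v a b) (ha : Av G c a u x y) (bx : Bare G c H u x)
    (by' : Bare G c H u y) (hc : Clr G H g) (hgS : tS G c g) (h : G.Adj a g) : g = u ∨ g = v := by
  rcases (ha.n3.nb g).1 h with h1 | h1 | h1
  · exact Or.inl h1
  · exact Or.inr (n_K F hu bx by' hc hgS (Or.inl h1))
  · exact Or.inr (n_K F hu bx by' hc hgS (Or.inr h1))

/-- a clear free vertex adjacent to `b` is `u` or `v` -/
theorem n_b {u v a b x y g : V} (hu : Sv G c u v a b) (ha : Av G c a u x y) (ta : tA G c a)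
    (tb : tA G c b) (bx : Bare G c H u x) (by' : Bare G c H u y) (hc : Clr G H g)
    (hgF : g ∈ Fr G c) (h : G.Adj b g) : g = u ∨ g = v := by
  have fu : u ∈ Fr G c := (sv_Fr F.mu1 hu).2 ⟨ta, tb⟩
  by_cases hgu : g = u
  · exact Or.inl hgu
  by_cases hr : Rm G c u g
  · exact Or.inr (sv_mateG F hu hr)
  · obtain ⟨v2, w1, w2, hq⟩ := sqg_of F (sv_swap hu) fu hgF (fun h => hgu h.symm) hr h tb
    exact n_a F hu ha bx by' hc (frG_tS hgF) ((hq.hb.n3.nb g).2 (by tauto))

/-- live vertices lost by `N(u,a)` -/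
theorem live_NG {u v a b x y : V} (hu : Sv G c u v a b) (ha : Av G c a u x y) (ta : tA G c a)
    (tb : tA G c b) (bx : Bare G c H u x) (by' : Bare G c H u y) {g : V} (hg : Live G c H g)
    (hc : ¬ Clr G (H ∪ {u, b, x, a, y}) g) : g = u ∨ g = v := by
  have hgS := frG_tS hg.1
  rcases not_clr' hg.2 hc with h1 | ⟨w, h1, h2⟩
  · simp only [Finset.mem_insert, Finset.mem_singleton] at h1
    rcases h1 with h1 | h1 | h1 | h1 | h1
    · exact Or.inl h1
    · exact (tSG_ne_tA hgS tb h1).elim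
    · exact Or.inr (n_K F hu bx by' hg.2 hgS (Or.inl h1))
    · exact (tSG_ne_tA hgS ta h1).elim
    · exact Or.inr (n_K F hu bx by' hg.2 hgS (Or.inr h1))
  · simp only [Finset.mem_insert, Finset.mem_singleton] at h2
    rcases h2 with h2 | h2 | h2 | h2 | h2
    · subst h2
      exact Or.inr (sv_mateG F hu ⟨h1.symm, by rw [hu.cs]; exact hgS.1⟩)
    · subst h2
      exact n_b F hu ha ta tb bx by' hg.2 hg.1 h1.symm
    · exact Or.inl (n_xy ha bx by' hg.2 hgS (Or.inl h2) h1)
    · subst h2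
      exact n_a F hu ha bx by' hg.2 hgS h1.symm
    · exact Or.inl (n_xy ha bx by' hg.2 hgS (Or.inr h2) h1)

/-- `A`-vertices at a live free vertex which are not clear any more after `N(u,a)` -/
theorem ls_NG {u v a b x y : V} (hu : Sv G c u v a b) (ha : Av G c a u x y) (ta : tA G c a)
    (tb : tA G c b) (bx : Bare G c H u x) (by' : Bare G c H u y) {f z : V} (hl : LS G c H f z)
    (h : ¬ LS G c (H ∪ {u, b, x, a, y}) f z) :
    f = u ∨ f = v ∨ (G.Adj z x ∧ z ≠ a) ∨ (G.Adj z y ∧ z ≠ a) := by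
  by_cases cf : Clr G (H ∪ {u, b, x, a, y}) f
  swap
  · rcases live_NG F hu ha ta tb bx by' hl.lv cf with h1 | h1
    · exact Or.inl h1
    · exact Or.inr (Or.inl h1)
  have fin2 : (z = a ∨ z = b) → f = u ∨ f = v := by
    rintro (h | h)
    · subst h
      exact n_a F hu ha bx by' hl.cf (frG_tS hl.fr) hl.adj.symm
    · subst h
      exact n_b F hu ha ta tb bx by' hl.cf hl.fr hl.adj.symm
  have fin3 : (z = a ∨ z = b) → f = u ∨ f = v ∨ (G.Adj z x ∧ z ≠ a) ∨ (G.Adj z y ∧ z ≠ a) := by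
    intro h
    rcases fin2 h with h3 | h3
    · exact Or.inl h3
    · exact Or.inr (Or.inl h3)
  have cz' : ¬ Clr G (H ∪ {u, b, x, a, y}) z := fun h1 => h ⟨hl.1, hl.2.1, hl.2.2.1, cf, h1⟩
  have cz := hl.ta.1
  rcases not_clr' hl.cx cz' with h1 | ⟨w, h1, h2⟩
  · simp only [Finset.mem_insert, Finset.mem_singleton] at h1
    rcases h1 with h1 | h1 | h1 | h1 | h1
    · rw [h1, hu.cs] at cz; cases cz
    · exact fin3 (Or.inr h1)
    · rw [h1, ha.cy] at cz; cases cz
    · exact fin3 (Or.inl h1)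
    · rw [h1, ha.cz] at cz; cases cz
  · simp only [Finset.mem_insert, Finset.mem_singleton] at h2
    have cw := false_of_A hl.ta.1 hl.ta.2 h1
    rcases h2 with h2 | h2 | h2 | h2 | h2
    · subst h2
      rcases (hu.n3.nb z).1 h1.symm with h3 | h3 | h3
      · rw [h3, hu.cm] at cz; cases cz
      · exact fin3 (Or.inl h3)
      · exact fin3 (Or.inr h3)
    · rw [h2, tb.1] at cw; cases cw
    · by_cases hza : z = a
      · exact fin3 (Or.inl hza)
      · exact Or.inr (Or.inr (Or.inl ⟨h2 ▸ h1, hza⟩))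
    · rw [h2, ta.1] at cw; cases cw
    · by_cases hza : z = a
      · exact fin3 (Or.inl hza)
      · exact Or.inr (Or.inr (Or.inr ⟨h2 ▸ h1, hza⟩))

/-- an available vertex of `T1` which is lost by `N(u,a)` is `v` or adjacent to `b` -/
theorem avl_NG {u v a b x y : V} (hu : Sv G c u v a b) (ha : Av G c a u x y) (ta : tA G c a)
    (tb : tA G c b) (bx : Bare G c H u x) (by' : Bare G c H u y) {t : V} (ht : Avl G c H t)
    (h : ¬ Clr G (H ∪ {u, b, x, a, y}) t) : t = v ∨ G.Adj b t := by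
  have fu : u ∈ Fr G c := (sv_Fr F.mu1 hu).2 ⟨ta, tb⟩
  have htS := t1G_tS ht.1
  have htu : t ≠ u := by
    rintro rfl
    exact frG_not_T1 fu ht.1
  rcases not_clr' ht.2 h with h7 | ⟨w, h7, h8⟩
  · simp only [Finset.mem_insert, Finset.mem_singleton] at h7
    rcases h7 with h7 | h7 | h7 | h7 | h7
    · exact (htu h7).elim
    · exact (tSG_ne_tA htS tb h7).elim
    · exact Or.inl (n_K F hu bx by' ht.2 htS (Or.inl h7))
    · exact (tSG_ne_tA htS ta h7).elim
    · exact Or.inl (n_K F hu bx by' ht.2 htS (Or.inr h7))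
  · simp only [Finset.mem_insert, Finset.mem_singleton] at h8
    rcases h8 with h8 | h8 | h8 | h8 | h8
    · subst h8
      exact Or.inl (sv_mateG F hu ⟨h7.symm, by rw [hu.cs]; exact htS.1⟩)
    · exact Or.inr (h8 ▸ h7.symm)
    · exact (htu (n_xy ha bx by' ht.2 htS (Or.inl h8) h7)).elim
    · subst h8
      rcases n_a F hu ha bx by' ht.2 htS h7.symm with h9 | h9
      · exact (htu h9).elim
      · exact Or.inl h9
    · exact (htu (n_xy ha bx by' ht.2 htS (Or.inr h8) h7)).elim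

/-- the good slots lost by `N(u,a)` -/
theorem loss_NG {u v a b x y : V} (hu : Sv G c u v a b) (ha : Av G c a u x y) (ta : tA G c a)
    (tb : tA G c b) (bx : Bare G c H u x) (by' : Bare G c H u y) {f z : V}
    (hg : GSG G c L H f z) (hn : ¬ GSG G c L (H ∪ {u, b, x, a, y}) f z) :
    f = u ∨ f = v ∨ SpG G c L H b f ∨ (G.Adj z x ∧ z ≠ a) ∨ (G.Adj z y ∧ z ≠ a) := by
  have fu : u ∈ Fr G c := (sv_Fr F.mu1 hu).2 ⟨ta, tb⟩
  have hl := hg.ls
  have uK : u ∈ H ∪ {u, b, x, a, y} := by simp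
  have wr : (f = u ∨ f = v ∨ (G.Adj z x ∧ z ≠ a) ∨ (G.Adj z y ∧ z ≠ a)) →
      f = u ∨ f = v ∨ SpG G c L H b f ∨ (G.Adj z x ∧ z ≠ a) ∨ (G.Adj z y ∧ z ≠ a) := by
    tauto
  by_cases hl' : LS G c (H ∪ {u, b, x, a, y}) f z
  swap
  · exact wr (ls_NG F hu ha ta tb bx by' hl hl')
  rcases st_GGL V G c j L H _ F Finset.subset_union_left f z hg hn with h | h |
    ⟨t, r, h1, h2, h3, h4⟩ | ⟨g, y1, v1, v', zx, zy, hq, h1, h2, h3, h4, h5, h6, h7⟩
  · exact (h hl'.cf).elim
  · exact (h hl'.cx).elim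
  · obtain ⟨-, m1, m2, m3, m4, m5, m6, m7⟩ := h1
    rcases avl_NG F hu ha ta tb bx by' h2 h3 with h5 | h5
    · exfalso
      rw [h5] at m4
      exact h4 (rm_uniq (F.mu1 v) m4 (sv_rm hu).symm ▸ uK)
    · -- `t ~ b`, `t ~ z`
      obtain ⟨r', q, hs, hq⟩ := t1_svG F m3 m1.symm hl.ta
      have hzb : z = b := by
        rcases (hs.n3.nb b).1 h5.symm with h9 | h9 | h9
        · have := tb.1
          rw [h9, hs.cm] at this; cases this
        · exact h9.symm
        · exact (tA_not_tQ tb (h9 ▸ hq)).elim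
      subst hzb
      rcases n_b F hu ha ta tb bx by' hl.cf hl.fr hl.adj.symm with h6 | h6
      · exact Or.inl h6
      · exact Or.inr (Or.inl h6)
  · right; right; left
    have fK : f ≠ u := by
      rintro rfl
      exact hl'.cf.1 uK
    have gK : g ≠ u := by
      rintro rfl
      exact h2.2.1 uK
    have fV : ∀ g, Clr G (H ∪ {u, b, x, a, y}) g → g ≠ v := by
      rintro g hc rfl
      exact hc.2 u (sv_rm hu).symm.1 uK
    have hv : ∀ m, Live G c H m → ¬ Live G c (H ∪ {u, b, x, a, y}) m →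
        (m = u ∨ m = v) := fun m hm hm' =>
      live_NG F hu ha ta tb bx by' hm fun h => hm' ⟨hm.1, h⟩
    have n1 : ¬ Live G c H v1 := by
      intro h8
      rcases hv v1 h8 h4 with h9 | h9
      · exact fV f hl'.cf (sv_mateG F hu (by rw [← h9]; exact (sv_rm hq.h1).symm))
      · exact fK (rm_uniq (F.mu1 v) (by rw [← h9]; exact (sv_rm hq.h1).symm) (sv_rm hu).symm)
    have n2 : ¬ Live G c H v' := by
      intro h8
      rcases hv v' h8 h6 with h9 | h9
      · exact fV g h2.2 (sv_mateG F hu (by rw [← h9]; exact (sv_rm hq.h2).symm))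
      · exact gK (rm_uniq (F.mu1 v) (by rw [← h9]; exact (sv_rm hq.h2).symm) (sv_rm hu).symm)
    have g2 : Live G c H g := h2.mono Finset.subset_union_left
    rcases h3 with h3 | h3 | h3 | ⟨y', h3, h8⟩
    · exact (n1 h3).elim
    · rcases avl_NG F hu ha ta tb bx by' h3 (fun h => h5 ⟨h3.1, h⟩) with h9 | h9
      · exact (fK (rm_uniq (F.mu1 v) (by rw [← h9]; exact (sv_rm hq.h1).symm)
          (sv_rm hu).symm)).elim
      · exact ⟨v1, g, z, y1, v1, v', zx, zy, h9, h3, hq, hl.lv, g2, n1, n2, Or.inl rfl⟩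
    · exact (n2 h3).elim
    · rcases avl_NG F hu ha ta tb bx by' h8 (fun h => h7 y' h3 ⟨h8.1, h⟩) with h9 | h9
      · subst h9
        exact (src_mate F h3 (sv_rm hu).symm fu).elim
      · exact ⟨y', g, z, y1, v1, v', zx, zy, h9, h8, hq, hl.lv, g2, n1, n2, Or.inr h3⟩

/-- the good branches lost by `N(u,a)` -/
theorem branch_NG {u v a b x y : V} (hu : Sv G c u v a b) (ha : Av G c a u x y) (ta : tA G c a)
    (tb : tA G c b) (bx : Bare G c H u x) (by' : Bare G c H u y)
    {f v' z y' t t' q q' k k' : V} (K : Khb G c f v' z y' t t' q q' k k') (hl : LS G c H f z)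
    (hk : Clr G H k) (hn : ¬ GB G c (H ∪ {u, b, x, a, y}) t) :
    f = u ∨ f = v ∨ G.Adj k x ∨ G.Adj k y := by
  have fu : u ∈ Fr G c := (sv_Fr F.mu1 hu).2 ⟨ta, tb⟩
  by_cases hl' : LS G c (H ∪ {u, b, x, a, y}) f z
  swap
  · -- the hub is adjacent to a bare vertex
    have key : ∀ w, w = x ∨ w = y → G.Adj z w → f = u ∨ f = v := by
      intro w hw hzw
      have hb : Bare G c H u w := by
        rcases hw with h | h
        · exact h ▸ bx
        · exact h ▸ by'
      have az : ∀ s, G.Adj z s → s ∉ H := fun s hs => hl.cx.2 s hs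
      rcases (K.ha.n3.nb w).1 hzw with h | h | h
      · subst h
        exact Or.inr (n_K F hu bx by' hl.cf (frG_tS hl.fr) hw)
      · subst h
        rcases hb t' (sv_rm K.h1) with h1 | h1
        · subst h1
          exact (frG_not_T1 fu (Pool.Agent.Helper79.MC.khb_T1 F.mu1 K.symm)).elim
        · exact (az t' ((K.ha.n3.nb t').2 (by simp)) h1).elim
      · subst h
        rcases hb t (sv_rm K.h2) with h1 | h1
        · subst h1
          exact (frG_not_T1 fu (Pool.Agent.Helper79.MC.khb_T1 F.mu1 K)).elim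
        · exact (az t ((K.ha.n3.nb t).2 (by simp)) h1).elim
    rcases ls_NG F hu ha ta tb bx by' hl hl' with h | h | h | h
    · exact Or.inl h
    · exact Or.inr (Or.inl h)
    · rcases key x (Or.inl rfl) h.1 with h1 | h1
      · exact Or.inl h1
      · exact Or.inr (Or.inl h1)
    · rcases key y (Or.inr rfl) h.1 with h1 | h1
      · exact Or.inl h1
      · exact Or.inr (Or.inl h1)
  · have hk' : ¬ Clr G (H ∪ {u, b, x, a, y}) k := fun h =>
      hn ⟨f, v', z, y', t', q, q', k, k', K, hl', h⟩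
    have ck : c k = true := by rw [K.q1.2, K.h1.cb]
    have tk : tQ G c k := ⟨ck, mu_of_rm F.mu1 K.q1.symm⟩
    rcases not_clr' hk hk' with h1 | ⟨w, h1, h2⟩
    · simp only [Finset.mem_insert, Finset.mem_singleton] at h1
      rcases h1 with h1 | h1 | h1 | h1 | h1
      · rw [h1, hu.cs] at ck; cases ck
      · exact (tA_not_tQ tb (h1 ▸ tk)).elim
      · rw [h1, ha.cy] at ck; cases ck
      · exact (tA_not_tQ ta (h1 ▸ tk)).elim
      · rw [h1, ha.cz] at ck; cases ck
    · simp only [Finset.mem_insert, Finset.mem_singleton] at h2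
      rcases h2 with h2 | h2 | h2 | h2 | h2
      · subst h2
        exact (fr_noQ F fu h1.symm tk).elim
      · subst h2
        exact (nomate tb.2 k ⟨h1.symm, by rw [ck, tb.1]⟩).elim
      · exact Or.inr (Or.inr (Or.inl (h2 ▸ h1)))
      · subst h2
        exact (nomate ta.2 k ⟨h1.symm, by rw [ck, ta.1]⟩).elim
      · exact Or.inr (Or.inr (Or.inr (h2 ▸ h1)))

end facts

/-- the slots and branches at the neighbours of `w`, without the slots of `u` and `v` -/
def WA (G : SimpleGraph V) [DecidableRel G.Adj] (c : V → Bool) (H : Finset V) (u v a w f z : V) :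
    Prop := LS G c H f z ∧ G.Adj z w ∧ z ≠ a ∧ f ≠ u ∧ f ≠ v

def WB (G : SimpleGraph V) [DecidableRel G.Adj] (c : V → Bool) (H : Finset V) (u v w t : V) :
    Prop := ∃ f v' x y t' q q' k k', Khb G c f v' x y t t' q q' k k' ∧ LS G c H f x ∧ Clr G H k ∧
      G.Adj k w ∧ f ≠ u ∧ f ≠ v

section facts2

variable (F : FxG G c j L)
include F

/-- everything lost by `N(u,a)`: `8` (slots of `u`, `v`), the weights at `x`, `y`, SPOIL at `b` -/
theorem cw_NG {u v a b x y : V} (hu : Sv G c u v a b) (ha : Av G c a u x y) (ta : tA G c a)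
    (tb : tA G c b) (bx : Bare G c H u x) (by' : Bare G c H u y) {n m s : ℕ}
    (hx : Cw G c n (WA G c H u v a x) (WB G c H u v x))
    (hy : Cw G c m (WA G c H u v a y) (WB G c H u v y))
    (hs : Cw G c s (fun f z => LS G c H f z ∧ f ≠ u ∧ f ≠ v ∧ SpG G c L H b f) (fun _ => False)) :
    Cw G c (8 + n + m + s)
      (fun f z => GSG G c L H f z ∧ ¬ GSG G c L (H ∪ {u, b, x, a, y}) f z)
      (fun t => GB G c H t ∧ ¬ GB G c (H ∪ {u, b, x, a, y}) t) := by
  refine (((((Cw.fst F.reg F.mu1 H u).or (Cw.fst F.reg F.mu1 H v)).or hx).or hy).or hs).mono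
    (by omega) ?_ ?_
  · rintro f z ⟨h1, h2⟩
    have hl := h1.ls
    by_cases fu : f = u
    · exact Or.inl (Or.inl (Or.inl (Or.inl ⟨fu, hl⟩)))
    by_cases fv : f = v
    · exact Or.inl (Or.inl (Or.inl (Or.inr ⟨fv, hl⟩)))
    rcases loss_NG F hu ha ta tb bx by' h1 h2 with h | h | h | h | h
    · exact (fu h).elim
    · exact (fv h).elim
    · exact Or.inr ⟨hl, fu, fv, h⟩
    · exact Or.inl (Or.inl (Or.inr ⟨hl, h.1, h.2, fu, fv⟩))
    · exact Or.inl (Or.inr ⟨hl, h.1, h.2, fu, fv⟩)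
  · rintro t ⟨⟨f, v', z, y', t', q, q', k, k', K, h1, h2⟩, h3⟩
    by_cases fu : f = u
    · subst fu
      exact Or.inl (Or.inl (Or.inl (Or.inl ⟨z, ⟨v', y', t', q, q', k, k', K⟩, h1⟩)))
    by_cases fv : f = v
    · subst fv
      exact Or.inl (Or.inl (Or.inl (Or.inr ⟨z, ⟨v', y', t', q, q', k, k', K⟩, h1⟩)))
    rcases branch_NG F hu ha ta tb bx by' K h1 h2 h3 with h | h | h | h
    · exact (fu h).elim
    · exact (fv h).elim
    · exact Or.inl (Or.inl (Or.inr ⟨f, v', z, y', t', q, q', k, k', K, h1, h2, h, fu, fv⟩))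
    · exact Or.inl (Or.inr ⟨f, v', z, y', t', q, q', k, k', K, h1, h2, h, fu, fv⟩)

/-- SPOIL at the other hub `b` of `u`: at most one vertex -/
theorem cw_sp {u v b : V} (hu : u ∈ Fr G c) (tb : tA G c b) (hbu : G.Adj b u) :
    Cw G c 4 (fun f z => LS G c H f z ∧ f ≠ u ∧ f ≠ v ∧ SpG G c L H b f) (fun _ => False) := by
  by_cases h : ∃ f, f ≠ u ∧ SpG G c L H b f
  · obtain ⟨f, h1, h2⟩ := h
    refine (Cw.fst F.reg F.mu1 H f).mono le_rfl ?_ (fun _ h => h.elim)
    rintro f' z ⟨k1, k2, k3, k4⟩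
    exact ⟨st_GSP V G c j L H F u b f' f hu tb hbu k2 h1 k4 h2, k1⟩
  · refine (Cw.none ?_ (fun _ h => h)).mono (by norm_num) (fun _ _ h => h) (fun _ h => h)
    rintro f z ⟨k1, k2, k3, k4⟩
    exact h ⟨f, k2, k4⟩

/-- the weight at `w` from the row G_W -/
theorem cw_w (hW : ST_GW) {u v a w : V} (hl : LS G c H u a) (hv : Rm G c u v)
    (haw : G.Adj a w) (hw : w ≠ u) (hb : Bare G c H u w) :
    Cw G c 8 (WA G c H u v a w) (WB G c H u v w) ∧
      (¬ Q0G G c H → Cw G c 5 (WA G c H u v a w) (WB G c H u v w)) := by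
  obtain ⟨LA, LQ, h1, h2, h3, h4, -⟩ := hW V G c j L H F u v a w hl hv haw hw hb
  have key : ∀ n, 2 * LA.card + LQ.card ≤ n →
      Cw G c n (WA G c H u v a w) (WB G c H u v w) := by
    intro n hn
    refine ⟨LA, LQ, hn, ?_, ?_⟩
    · rintro f z ⟨k1, k2, k3, k4, k5⟩
      exact h3 f z k1 k2 k3 k4 k5
    · rintro t ⟨f, v', x, y, t', q, q', k, k', K, k1, k2, k3, k4, k5⟩
      exact Or.inl (h4 t f v' x y t' q q' k k' K k1 k2 k3 k4 k5)
  exact ⟨key 8 h1, fun hq => key 5 (h2 hq)⟩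

/-- live vertices lost by `N(u,a)`, counted -/
theorem card_live_NG {u v a b x y : V} (hu : Sv G c u v a b) (ha : Av G c a u x y)
    (ta : tA G c a) (tb : tA G c b) (bx : Bare G c H u x) (by' : Bare G c H u y) :
    (live G c H \ live G c (H ∪ {u, b, x, a, y})).card ≤ 2 := by
  refine cov_live (((Cov.one u).or (Cov.one v)).mono (fun g hg => ?_) le_rfl)
  exact live_NG F hu ha ta tb bx by' hg.1 (fun h => hg.2 ⟨hg.1.1, h⟩)

/-- nothing is lost at the free mate `v` of `u` at `a` -/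
theorem cw_v {u v a b : V} (hu : Sv G c u v a b) (ta : tA G c a) (fu : u ∈ Fr G c)
    (fv : v ∈ Fr G c) (hav : G.Adj a v) :
    Cw G c 0 (WA G c H u v a v) (WB G c H u v v) := by
  have hua : G.Adj a u := ((hu.n3.nb a).2 (by simp)).symm
  have huv : u ≠ v := (sv_rm hu).ne
  refine Cw.none ?_ ?_
  · rintro f z ⟨k1, k2, k3, k4, k5⟩
    have hr : ¬ Rm G c v f := fun h => k4 (rm_uniq (F.mu1 v) h (sv_rm hu).symm)
    obtain ⟨m, b', hs, tb'⟩ := fr_svG F fv k2.symm k1.ta
    obtain ⟨v2, za, zb, hq⟩ := sqg_of F hs fv k1.fr (fun h => k5 h.symm) hr k1.adj.symm k1.ta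
    have e : b' = a := by
      rcases (hs.n3.nb a).1 hav.symm with h | h | h
      · have := ta.1
        rw [h, hs.cm] at this
        cases this
      · exact (k3 h.symm).elim
      · exact h.symm
    subst e
    have haf : G.Adj b' f := (hq.hb.n3.nb f).2 (by simp)
    obtain ⟨p, q, hav'⟩ := av_ex F.reg ta hua
    have : ∀ s, G.Adj b' s → s ≠ u → s ∈ Fr G c → s = p ∨ s = q := by
      intro s h1 h2 h3
      rcases (hav'.n3.nb s).1 h1 with h | h | h
      · exact (h2 h).elim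
      · exact Or.inl h
      · exact Or.inr h
    have key : ∀ p q, Av G c b' u p q → v = p → f = q → False := by
      rintro p q h rfl rfl
      exact F.g2 b' u v f h ta fu fv k1.fr
    rcases this v hav huv.symm fv with h1 | h1 <;> rcases this f haf k4 k1.fr with h2 | h2
    · exact k5 (h2.trans h1.symm)
    · exact key p q hav' h1 h2
    · exact key q p (av_swap' hav') h1 h2
    · exact k5 (h2.trans h1.symm)
  · rintro t ⟨f, v', x, y, t', q, q', k, k', K, k1, k2, k3, k4, k5⟩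
    have ck : c k = true := by rw [K.q1.2, K.h1.cb]
    exact fr_noQ F fv k3.symm ⟨ck, mu_of_rm F.mu1 K.q1.symm⟩

end facts2

/-- row G_C0 from G_W -/
theorem st_GC0 (hW : ST_GW) : ST_GC0 := by
  intro V _ _ G _ c j L H F hI hQ
  obtain ⟨u, v, a, w, hl, hr, hv, hav, haw, tw⟩ := hQ
  obtain ⟨v', b, hu, tb⟩ := fr_svG F hl.fr hl.adj hl.ta
  have e := sv_mateG F hu hr
  subst e
  have wv : w ≠ v := by
    rintro rfl
    exact nomate tw.2 _ hr.symm
  have wu : w ≠ u := by
    rintro rfl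
    exact nomate tw.2 _ hr
  have ha : Av G c a u v w := by
    obtain ⟨p, q, h⟩ := av_ex F.reg hl.ta hl.adj.symm
    rcases (h.n3.nb v).1 hav with h1 | h1 | h1
    · exact (hr.ne h1.symm).elim
    · subst h1
      rcases (h.n3.nb w).1 haw with h2 | h2 | h2
      · exact (wu h2).elim
      · exact (wv h2).elim
      · exact h2 ▸ h
    · subst h1
      rcases (h.n3.nb w).1 haw with h2 | h2 | h2
      · exact (wu h2).elim
      · exact av_swap' (h2 ▸ h)
      · exact (wv h2).elim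
  have bv : Bare G c H u v := fun y hy => Or.inl (rm_uniq (F.mu1 v) hy hr.symm)
  have bw : Bare G c H u w := fun y hy => (nomate tw.2 y hy).elim
  have hbu : G.Adj b u := ((hu.n3.nb b).2 (by simp)).symm
  refine ⟨_, ⟨u, v, a, b, v, w, hu, ha, hl.ta, tb, hl.cf, hl.cx, bv, bw, rfl⟩, ?_, ?_⟩
  · refine (Cw.card F.mu1 (cw_NG F hu ha hl.ta tb bv bw (cw_v F hu hl.ta hl.fr hv.1 hav)
      (cw_w F hW hl hr haw wu bw).1 (cw_sp F (v := v) hl.fr tb hbu))).trans (by norm_num)
  · exact card_live_NG F hu ha hl.ta tb bv bw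

/-- row G_C1 from G_W -/
theorem st_GC1 (hW : ST_GW) : ST_GC1 := by
  intro V _ _ G _ c j L H F hI hQ hN
  obtain ⟨u, a, hl, hb⟩ := hN
  obtain ⟨v, b, hu, tb⟩ := fr_svG F hl.fr hl.adj hl.ta
  obtain ⟨x, y, ha⟩ := av_ex F.reg hl.ta hl.adj.symm
  have hax : G.Adj a x := (ha.n3.nb x).2 (by simp)
  have hay : G.Adj a y := (ha.n3.nb y).2 (by simp)
  have xu : x ≠ u := ha.n3.xy.symm
  have yu : y ≠ u := ha.n3.xz.symm
  have bx : Bare G c H u x := hb x hax xu
  have by' : Bare G c H u y := hb y hay yu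
  have hbu : G.Adj b u := ((hu.n3.nb b).2 (by simp)).symm
  have hr := sv_rm hu
  refine ⟨_, ⟨u, v, a, b, x, y, hu, ha, hl.ta, tb, hl.cf, hl.cx, bx, by', rfl⟩, ?_, ?_⟩
  · refine (Cw.card F.mu1 (cw_NG F hu ha hl.ta tb bx by'
      ((cw_w F hW hl hr hax xu bx).2 hQ) ((cw_w F hW hl hr hay yu by').2 hQ)
      (cw_sp F (v := v) hl.fr tb hbu))).trans (by norm_num)
  · exact card_live_NG F hu ha hl.ta tb bx by'

end Pool.Agent.Helper86.MC
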